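import Pool.Agent.H59.SPFinal

/-!
MP_dc6857_nt: upper bounds for the counting functions of sums of three nonnegative cubes and of
four fourth powers which take the residue classes into account; both are smaller than the
trivial bounds `Γ(4/3)^3 / 6 * x` and `Γ(5/4)^4 / 24 * x`.
-/

open Finset Filter Topology

namespace Pool.Agent.Results.MP_dc6857_nt.LocalDensityUpperBound

/-- `N₃(x)`: the number of integers `1 ≤ n ≤ x` which are sums of three nonnegative cubes. -/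
noncomputable def N3 (x : ℝ) : ℕ :=
  Set.ncard {n : ℤ | 1 ≤ n ∧ (n : ℝ) ≤ x ∧
    ∃ a b c : ℤ, 0 ≤ a ∧ 0 ≤ b ∧ 0 ≤ c ∧ n = a ^ 3 + b ^ 3 + c ^ 3}

/-- `N₄(x)`: the number of integers `1 ≤ n ≤ x` which are sums of four fourth powers. -/
noncomputable def N4 (x : ℝ) : ℕ :=
  Set.ncard {n : ℤ | 1 ≤ n ∧ (n : ℝ) ≤ x ∧
    ∃ a b c d : ℤ, n = a ^ 4 + b ^ 4 + c ^ 4 + d ^ 4}

/-- The proportion of the triples of residues modulo `M` whose sum of cubes is `r`. -/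
noncomputable def prop3 (M : ℕ) [NeZero M] (r : ZMod M) : ℝ :=
  (((Finset.univ : Finset (Fin 3 → ZMod M)).filter
    (fun v => v 0 ^ 3 + v 1 ^ 3 + v 2 ^ 3 = r)).card : ℝ) / (M : ℝ) ^ 3

/-- The proportion of the quadruples of residues modulo `M` whose sum of fourth powers is `r`. -/
noncomputable def prop4 (M : ℕ) [NeZero M] (r : ZMod M) : ℝ :=
  (((Finset.univ : Finset (Fin 4 → ZMod M)).filter
    (fun v => v 0 ^ 4 + v 1 ^ 4 + v 2 ^ 4 + v 3 ^ 4 = r)).card : ℝ) / (M : ℝ) ^ 4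

/-- The constant for cubes (about `0.117943`; the trivial one is about `0.118679`). -/
noncomputable def c3 : ℝ :=
  1 / 273 + Real.Gamma (4 / 3) ^ 3 / 6 *
    (1 - 513 / 9 ^ 3 * (112 / 8 ^ 3) * (180 / 7 ^ 3) * (1008 / 13 ^ 3))

/-- The constant for fourth powers (about `0.0280947`; the trivial one is about `0.0281237`). -/
noncomputable def c4 : ℝ :=
  6 / 53040 + Real.Gamma (5 / 4) ^ 4 / 24 *
    (1 - 24576 / 16 ^ 4 * (33 / 3 ^ 4) * (512 / 5 ^ 4) * (10032 / 13 ^ 4) * (9601 / 17 ^ 4))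

open Pool.Agent.H59.SP

lemma N3_eq (x : ℝ) (hx : 0 ≤ x) : N3 x = (S 3 ⌊x⌋₊).card := by
  unfold N3
  have hset : {n : ℤ | 1 ≤ n ∧ (n : ℝ) ≤ x ∧
      ∃ a b c : ℤ, 0 ≤ a ∧ 0 ≤ b ∧ 0 ≤ c ∧ n = a ^ 3 + b ^ 3 + c ^ 3} =
      (fun m : ℕ => (m : ℤ)) '' (S 3 ⌊x⌋₊ : Set ℕ) := by
    ext n
    constructor
    · rintro ⟨h1, h2, a, b, c, ha, hb, hc, h3⟩
      obtain ⟨m, rfl⟩ := Int.eq_ofNat_of_zero_le (by omega : 0 ≤ n)
      refine ⟨m, ?_, rfl⟩
      obtain ⟨a', rfl⟩ := Int.eq_ofNat_of_zero_le ha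
      obtain ⟨b', rfl⟩ := Int.eq_ofNat_of_zero_le hb
      obtain ⟨c', rfl⟩ := Int.eq_ofNat_of_zero_le hc
      apply Finset.mem_coe.mpr
      rw [mem_S]
      refine ⟨⟨by exact_mod_cast h1, ?_⟩, ![a', b', c'], ?_⟩
      · apply Nat.le_floor
        exact_mod_cast h2
      · rw [Fin.sum_univ_three]
        simp only [Matrix.cons_val_zero, Matrix.cons_val_one, Matrix.cons_val]
        exact_mod_cast h3.symm
    · rintro ⟨m, hm, hmn⟩
      have hmn' : n = (m : ℤ) := hmn.symm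
      subst hmn'
      obtain ⟨⟨h1, h2⟩, a, h3⟩ := mem_S.mp (Finset.mem_coe.mp hm)
      refine ⟨by exact_mod_cast h1, ?_, a 0, a 1, a 2, by positivity, by positivity,
        by positivity, ?_⟩
      · have := (Nat.le_floor_iff hx).mp h2
        exact_mod_cast this
      · rw [Fin.sum_univ_three] at h3
        exact_mod_cast h3.symm
  rw [hset, Set.ncard_image_of_injective _ Nat.cast_injective, Set.ncard_coe_finset]

lemma N4_eq (x : ℝ) (hx : 0 ≤ x) : N4 x = (S 4 ⌊x⌋₊).card := by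
  unfold N4
  have hset : {n : ℤ | 1 ≤ n ∧ (n : ℝ) ≤ x ∧
      ∃ a b c d : ℤ, n = a ^ 4 + b ^ 4 + c ^ 4 + d ^ 4} =
      (fun m : ℕ => (m : ℤ)) '' (S 4 ⌊x⌋₊ : Set ℕ) := by
    ext n
    constructor
    · rintro ⟨h1, h2, a, b, c, d, h3⟩
      obtain ⟨m, rfl⟩ := Int.eq_ofNat_of_zero_le (by omega : 0 ≤ n)
      refine ⟨m, ?_, rfl⟩
      apply Finset.mem_coe.mpr
      rw [mem_S]
      refine ⟨⟨by exact_mod_cast h1, ?_⟩, ![a.natAbs, b.natAbs, c.natAbs, d.natAbs], ?_⟩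
      · apply Nat.le_floor
        exact_mod_cast h2
      · rw [Fin.sum_univ_four]
        simp only [Matrix.cons_val_zero, Matrix.cons_val_one, Matrix.cons_val]
        have h4 : ((a.natAbs ^ 4 + b.natAbs ^ 4 + c.natAbs ^ 4 + d.natAbs ^ 4 : ℕ) : ℤ) =
            (m : ℤ) := by
          push_cast
          rw [h3]
          have he : Even 4 := ⟨2, rfl⟩
          simp only [he.pow_abs]
        exact_mod_cast h4
    · rintro ⟨m, hm, hmn⟩
      have hmn' : n = (m : ℤ) := hmn.symm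
      subst hmn'
      obtain ⟨⟨h1, h2⟩, a, h3⟩ := mem_S.mp (Finset.mem_coe.mp hm)
      refine ⟨by exact_mod_cast h1, ?_, a 0, a 1, a 2, a 3, ?_⟩
      · have := (Nat.le_floor_iff hx).mp h2
        exact_mod_cast this
      · rw [Fin.sum_univ_four] at h3
        exact_mod_cast h3.symm
  rw [hset, Set.ncard_image_of_injective _ Nat.cast_injective, Set.ncard_coe_finset]

lemma cnt3 (M : ℕ) [NeZero M] (r : ZMod M) :
    (cnt (ZMod M) 3 3 r : ℝ) / (M : ℝ) ^ 3 = prop3 M r := by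
  unfold cnt prop3
  simp only [Fin.sum_univ_three]

lemma cnt4 (M : ℕ) [NeZero M] (r : ZMod M) :
    (cnt (ZMod M) 4 4 r : ℝ) / (M : ℝ) ^ 4 = prop4 M r := by
  unfold cnt prop4
  simp only [Fin.sum_univ_four]

lemma transfer3 (C : ℝ) (hC : 0 ≤ C) (h : ∀ᶠ X : ℕ in atTop, ((S 3 X).card : ℝ) ≤ C * X) :
    ∀ᶠ x : ℝ in atTop, (N3 x : ℝ) ≤ C * x := by
  filter_upwards [(tendsto_nat_floor_atTop (α := ℝ)).eventually h, eventually_ge_atTop 0]
    with x h1 h2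
  rw [N3_eq x h2]
  exact h1.trans (mul_le_mul_of_nonneg_left (Nat.floor_le h2) hC)

lemma transfer4 (C : ℝ) (hC : 0 ≤ C) (h : ∀ᶠ X : ℕ in atTop, ((S 4 X).card : ℝ) ≤ C * X) :
    ∀ᶠ x : ℝ in atTop, (N4 x : ℝ) ≤ C * x := by
  filter_upwards [(tendsto_nat_floor_atTop (α := ℝ)).eventually h, eventually_ge_atTop 0]
    with x h1 h2
  rw [N4_eq x h2]
  exact h1.trans (mul_le_mul_of_nonneg_left (Nat.floor_le h2) hC)

lemma lam3 : Real.Gamma (1 / ((3 : ℕ) : ℝ) + 1) ^ 3 / ((Nat.factorial 3 : ℕ) : ℝ) =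
    Real.Gamma (4 / 3) ^ 3 / 6 := by
  norm_num [Nat.factorial]

lemma lam4 : Real.Gamma (1 / ((4 : ℕ) : ℝ) + 1) ^ 4 / ((Nat.factorial 4 : ℕ) : ℝ) =
    Real.Gamma (5 / 4) ^ 4 / 24 := by
  norm_num [Nat.factorial]

lemma g3pos : 0 < Real.Gamma (4 / 3) := Real.Gamma_pos_of_pos (by norm_num)

lemma g4pos : 0 < Real.Gamma (5 / 4) := Real.Gamma_pos_of_pos (by norm_num)

lemma c3_nonneg : 0 ≤ c3 := by
  unfold c3
  have h := g3pos
  have h2 : (0 : ℝ) ≤ 1 - 513 / 9 ^ 3 * (112 / 8 ^ 3) * (180 / 7 ^ 3) * (1008 / 13 ^ 3) := by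
    norm_num
  positivity

lemma c4_nonneg : 0 ≤ c4 := by
  unfold c4
  have h := g4pos
  have h2 : (0 : ℝ) ≤ 1 - 24576 / 16 ^ 4 * (33 / 3 ^ 4) * (512 / 5 ^ 4) * (10032 / 13 ^ 4) *
      (9601 / 17 ^ 4) := by
    norm_num
  positivity

lemma c3_lt : c3 < Real.Gamma (4 / 3) ^ 3 / 6 := by
  unfold c3
  have h := gamma3
  set g : ℝ := Real.Gamma (4 / 3) ^ 3 with hg
  have h2 : (1 : ℝ) / 273 <
      g / 6 * (513 / 9 ^ 3 * (112 / 8 ^ 3) * (180 / 7 ^ 3) * (1008 / 13 ^ 3)) := by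
    norm_num at h ⊢
    linarith
  linarith

lemma c4_lt : c4 < Real.Gamma (5 / 4) ^ 4 / 24 := by
  unfold c4
  have h := gamma4
  set g : ℝ := Real.Gamma (5 / 4) ^ 4 with hg
  have h2 : (6 : ℝ) / 53040 < g / 24 * (24576 / 16 ^ 4 * (33 / 3 ^ 4) * (512 / 5 ^ 4) *
      (10032 / 13 ^ 4) * (9601 / 17 ^ 4)) := by
    norm_num at h ⊢
    linarith
  linarith

lemma bound3 (ε : ℝ) (hε : 0 < ε) :
    ∀ᶠ X : ℕ in atTop, ((S 3 X).card : ℝ) ≤ (c3 + ε) * X := by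
  obtain ⟨M, hM⟩ : ∃ M : ℕ, M = 9 * 8 * 7 * 13 := ⟨_, rfl⟩
  have hMR : (M : ℝ) = 6552 := by rw [hM]; norm_num
  have : NeZero M := ⟨by rw [hM]; norm_num⟩
  obtain ⟨A, hA1, hA2⟩ := exists_A3 M hM
  have h := density_bound 3 (by norm_num) M A ε hε
  have hQ : (Q 3 M A : ℝ) = (M : ℝ) ^ 3 - 513 * 112 * 180 * 1008 := by
    have h2 : ((Q 3 M A + 513 * 112 * 180 * 1008 : ℕ) : ℝ) = ((M ^ 3 : ℕ) : ℝ) := by rw [hA2]
    push_cast at h2
    linarith
  rw [hA1, hQ, lam3, hMR] at h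
  have hc : ((24 : ℕ) : ℝ) / 6552 + Real.Gamma (4 / 3) ^ 3 / 6 *
      ((6552 ^ 3 - 513 * 112 * 180 * 1008) / 6552 ^ 3) + ε = c3 + ε := by
    unfold c3
    norm_num
  rw [hc] at h
  exact h

lemma bound4 (ε : ℝ) (hε : 0 < ε) :
    ∀ᶠ X : ℕ in atTop, ((S 4 X).card : ℝ) ≤ (c4 + ε) * X := by
  obtain ⟨M, hM⟩ : ∃ M : ℕ, M = 16 * 3 * 5 * 13 * 17 := ⟨_, rfl⟩
  have hMR : (M : ℝ) = 53040 := by rw [hM]; norm_num
  have : NeZero M := ⟨by rw [hM]; norm_num⟩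
  obtain ⟨A, hA1, hA2⟩ := exists_A4 M hM
  have h := density_bound 4 (by norm_num) M A ε hε
  have hQ : (Q 4 M A : ℝ) = (M : ℝ) ^ 4 - 24576 * 33 * 512 * 10032 * 9601 := by
    have h2 : ((Q 4 M A + 24576 * 33 * 512 * 10032 * 9601 : ℕ) : ℝ) = ((M ^ 4 : ℕ) : ℝ) := by
      rw [hA2]
    push_cast at h2
    linarith
  rw [hA1, hQ, lam4, hMR] at h
  have hc : ((6 : ℕ) : ℝ) / 53040 + Real.Gamma (5 / 4) ^ 4 / 24 *
      ((53040 ^ 4 - 24576 * 33 * 512 * 10032 * 9601) / 53040 ^ 4) + ε = c4 + ε := by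
    unfold c4
    norm_num
  rw [hc] at h
  exact h

/-- (1), (2): for every modulus `M` the upper density of the sums of three nonnegative cubes is at
most `∑ r, min (1 / M) (Γ(4/3)^3 / 6 * prop3 M r)`, and similarly for sums of four fourth powers.
(3), (4): explicit upper bounds `c3`, `c4`, strictly smaller than the trivial ones. -/
theorem result :
    (∀ (M : ℕ) [NeZero M] (ε : ℝ), 0 < ε → ∀ᶠ x : ℝ in atTop, (N3 x : ℝ) ≤
      (∑ r : ZMod M, min (1 / (M : ℝ)) (Real.Gamma (4 / 3) ^ 3 / 6 * prop3 M r) + ε) * x) ∧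
    (∀ (M : ℕ) [NeZero M] (ε : ℝ), 0 < ε → ∀ᶠ x : ℝ in atTop, (N4 x : ℝ) ≤
      (∑ r : ZMod M, min (1 / (M : ℝ)) (Real.Gamma (5 / 4) ^ 4 / 24 * prop4 M r) + ε) * x) ∧
    (c3 < Real.Gamma (4 / 3) ^ 3 / 6 ∧
      ∀ ε : ℝ, 0 < ε → ∀ᶠ x : ℝ in atTop, (N3 x : ℝ) ≤ (c3 + ε) * x) ∧
    (c4 < Real.Gamma (5 / 4) ^ 4 / 24 ∧
      ∀ ε : ℝ, 0 < ε → ∀ᶠ x : ℝ in atTop, (N4 x : ℝ) ≤ (c4 + ε) * x) := by
  refine ⟨?_, ?_, ⟨c3_lt, ?_⟩, ⟨c4_lt, ?_⟩⟩
  · intro M _ ε hε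
    apply transfer3
    · have : 0 ≤ ∑ r : ZMod M, min (1 / (M : ℝ)) (Real.Gamma (4 / 3) ^ 3 / 6 * prop3 M r) := by
        apply Finset.sum_nonneg
        intro r _
        have h1 := g3pos
        have h2 : 0 ≤ prop3 M r := by unfold prop3; positivity
        positivity
      linarith
    · have h := density_bound_min 3 (by norm_num) M ε hε
      rw [lam3] at h
      simp only [cnt3] at h
      exact h
  · intro M _ ε hε
    apply transfer4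
    · have : 0 ≤ ∑ r : ZMod M, min (1 / (M : ℝ)) (Real.Gamma (5 / 4) ^ 4 / 24 * prop4 M r) := by
        apply Finset.sum_nonneg
        intro r _
        have h1 := g4pos
        have h2 : 0 ≤ prop4 M r := by unfold prop4; positivity
        positivity
      linarith
    · have h := density_bound_min 4 (by norm_num) M ε hε
      rw [lam4] at h
      simp only [cnt4] at h
      exact h
  · intro ε hε
    exact transfer3 _ (by have := c3_nonneg; linarith) (bound3 ε hε)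
  · intro ε hε
    exact transfer4 _ (by have := c4_nonneg; linarith) (bound4 ε hε)

end Pool.Agent.Results.MP_dc6857_nt.LocalDensityUpperBound
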